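import Mathlib
import Pool.Agent.Helper832.GDStmt
import Pool.Agent.Helper832.GDV
import Pool.Agent.Helper832.GDU
import Pool.Agent.H724R3.N.Comm3
import Pool.Agent.H724R3.N.Scat

set_option autoImplicit false

/-!
The global dimension and the bidimension of the Banach algebra of continuous functions on a compact
Hausdorff space which is not scattered are infinite.
-/

namespace Pool.Agent.Results.MP_75da70_an.NonScattered

open Pool.Agent.Helper832.GS Pool.Agent.H724R3.N

/-- If the compact Hausdorff space `Ω` is not scattered, i.e. has a nonempty subset without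
isolated points, then the global dimension and the bidimension of `C(Ω)` are infinite. -/
theorem result (Ω : Type) [TopologicalSpace Ω] [CompactSpace Ω] [T2Space Ω] (S : Set Ω)
    (hne : S.Nonempty) (hS : Preperfect S) :
    dg C(Ω, ℂ) = ⊤ ∧ db C(Ω, ℂ) = ⊤ := by
  obtain ⟨f, hf⟩ := scat Ω S hne hS
  obtain ⟨h1, -⟩ := comm3 Ω f hf
  refine ⟨?_, h1⟩
  rw [← h1]
  exact dg_eq_db fun _ _ _ _ _ _ _ _ l r h1 h2 h3 h4 h5 =>
    Pool.Agent.Helper832.RT.retract l r ⟨h1, h2, h3, h4, h5⟩

end Pool.Agent.Results.MP_75da70_an.NonScattered
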